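import Pool.Agent.AT5.Stmts2
import Pool.Agent.Helper77_ML.Fin

/-!
# Squad AT5, row FN5: the final theorem
-/

open scoped BigOperators

noncomputable section

namespace Pool.Agent.PP.T5.H43

open Pool.Agent.Helper51_AWC Pool.Agent.Helper79_WRA Pool.Agent.PP Pool.Agent.PP.KF
open Pool.Agent.PP.K9 Pool.Agent.PP.K9.H97 Pool.Agent.PP.H75 Pool.Agent.PP.T3 Pool.Agent.PP.T2

attribute [local instance] Ideal.Quotient.field

theorem ep_pos' (ℓ : ℕ) : 1 ≤ ep ℓ := by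
  unfold ep
  split_ifs <;> omega

/-- FN5 -/
theorem fn5 (hT5A : T5aStmt) (hDZ5 : Dz5Stmt) : Fn5Stmt := by
  classical
  intro ℓ hfact M _ hM G _ _ hc χ hχ D hD z hz hzc B hB hBc q m hq hcard hle
  have hℓ : ℓ.Prime := hfact.out
  have hF : GoodF ℓ (FF M) := H50.fld ℓ hℓ M hM
  have hep := ep_pos' ℓ
  have hn : (opCore ℓ G).Normal := H75.opCore_normal (A := G) ℓ
  obtain ⟨e, he, h1, h2⟩ := H50.bid ℓ hℓ M hM G χ hχ
  let p : G →* G ⧸ opCore ℓ G := QuotientGroup.mk' (opCore ℓ G)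
  have hker : p.ker = opCore ℓ G := QuotientGroup.ker_mk' _
  have hsurj : Function.Surjective p := QuotientGroup.mk'_surjective (opCore ℓ G)
  have hkp : IsPGroup ℓ p.ker := by
    rw [hker]
    exact H75.opCore_isPGroup hℓ
  have hkc : p.ker ≤ Subgroup.center G := by
    rw [hker]
    exact hc
  obtain ⟨hblk, hOD, hcm, hTp⟩ := hDZ5 ℓ M hM G hc χ hχ D hD e he h1
    (G ⧸ opCore ℓ G) p hsurj hker
  have heq := H75.altSum_central H20.nls H20.brm H63.smt H94.nch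
    (H50.dic H20.ibn H20.nls H20.brm) hℓ M hM hF hsurj hker hkp hkc χ hχ e he h1 h2
  have hmem : ∀ x : G, p x = 1 ↔ x ∈ opCore ℓ G := by
    intro x
    rw [← MonoidHom.mem_ker]
    exact iff_of_eq (congrArg (fun S : Subgroup G => x ∈ S) hker)
  have hcomm : ∀ x y : G, x * y * x⁻¹ * y⁻¹ ∈ opCore ℓ G → p x * p y = p y * p x := by
    intro x y h
    have h3 := (hmem _).2 h
    rw [map_mul, map_mul, map_mul, map_inv, map_inv] at h3
    have h4 : p x * p y * (p x)⁻¹ = p y := mul_inv_eq_one.1 h3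
    exact mul_inv_eq_iff_eq_mul.1 h4
  -- the numbers
  have hO0 : 0 < Nat.card (opCore ℓ G) := Nat.card_pos
  have hV' : Nat.card (D.map p) = m * q := by
    have h3 : Nat.card (D.map p) * Nat.card (opCore ℓ G) = m * q * Nat.card (opCore ℓ G) := by
      rw [hcm, hcard]
    exact Nat.eq_of_mul_eq_mul_right hO0 h3
  obtain ⟨n, hpn⟩ := (IsPGroup.iff_card).1 hTp.pg
  have hmq : m * q = ℓ ^ n := by rw [← hV', hpn]
  obtain ⟨p₀, -, hm⟩ := (Nat.dvd_prime_pow hℓ).1 (Dvd.intro _ hmq)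
  obtain ⟨a, -, hqa⟩ := (Nat.dvd_prime_pow hℓ).1 (Dvd.intro_left _ hmq)
  have hord : orderOf (p z) = ℓ ^ a := by
    rw [← hqa]
    apply Nat.dvd_antisymm
    · rw [orderOf_dvd_iff_pow_eq_one, ← map_pow, hmem, hq]
    · rw [← hq, ← hmem, map_pow]
      exact pow_orderOf_eq_one _
  -- the index
  have hBi : (B.map p).relIndex (D.map p) ≤ B.relIndex D := by
    have hKD : D ⊔ p.ker = D := sup_eq_left.2 (hker.le.trans hOD)
    rw [Subgroup.relIndex_map_map, hKD]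
    refine Subgroup.relIndex_le_of_le_left le_sup_left ?_
    intro h0
    have h5 := Subgroup.relIndex_dvd_card B D
    rw [h0, zero_dvd_iff] at h5
    exact (Nat.card_pos (α := D)).ne' h5
  have hDpg : IsPGroup ℓ D := hD.1
  obtain ⟨k, hk⟩ : ∃ k, B.relIndex D = ℓ ^ k := by
    obtain ⟨n', hn'⟩ := (IsPGroup.iff_card).1 hDpg
    have h3 : B.relIndex D ∣ ℓ ^ n' := by
      rw [← hn']
      exact Subgroup.relIndex_dvd_card B D
    obtain ⟨k, -, hk⟩ := (Nat.dvd_prime_pow hℓ).1 h3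
    exact ⟨k, hk⟩
  have hineq : 3 * p₀ + k + ep ℓ ≤ a := by
    rw [hm, hk, hqa, ← pow_mul, ← pow_add, ← pow_add] at hle
    have := (Nat.pow_le_pow_iff_right hℓ.one_lt).1 hle
    omega
  have hCy : Cy ℓ a p₀ k (D.map p) := by
    refine ⟨by omega, by omega, ⟨p z, Subgroup.mem_map_of_mem p hz, ?_, hord⟩, ?_,
      ⟨B.map p, Subgroup.map_mono hB, ?_, hk ▸ hBi⟩⟩
    · rintro v ⟨d, hd, rfl⟩
      exact (hcomm z d (hzc d hd)).symm
    · rw [hV', hm, hqa, ← pow_add, add_comm]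
    · rintro x ⟨x, hx, rfl⟩ y ⟨y, hy, rfl⟩
      exact hcomm x y (hBc x hx y hy)
  have h0 : YY ℓ (⊤ : Subgroup (G ⧸ opCore ℓ G)) (push p e) = 0 :=
    hT5A ℓ M hM a p₀ k hineq (G ⧸ opCore ℓ G) (push p e) (D.map p) hblk hTp hCy
  rw [h0, mul_zero] at heq
  rcases mul_eq_zero.1 heq with h | h
  · exact absurd h (by exact_mod_cast (Nat.card_pos (α := G)).ne')
  · exact h

end Pool.Agent.PP.T5.H43
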