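import Pool.Agent.AT5.Stmts2
import Pool.Agent.Helper38_AT3.POS
import Pool.Agent.Helper3_K9.Lbd
import Pool.Agent.Helper75_PP.Fin0
import Pool.Agent.Helper50_PP.Bid
import Pool.Agent.Helper50_PP.Ldp
import Pool.Agent.Helper50_PP.Dic
import Pool.Agent.Helper50_PP.Ffa
import Pool.Agent.Helper20_PP.Nls
import Pool.Agent.Helper20_PP.Ibr
import Pool.Agent.Helper63_PP.Smt
import Pool.Agent.Helper94_PP.Nch
import Pool.Agent.Helper96_PP.Trn
import Pool.Agent.Helper9_PP.Add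
import Pool.Agent.Helper79_WRA.Tower

/-!
# Squad AT5, row T5A: the main theorem for block idempotents
-/

open scoped BigOperators

noncomputable section

namespace Pool.Agent.PP.T5.H43

open Pool.Agent.Helper51_AWC Pool.Agent.Helper79_WRA Pool.Agent.PP Pool.Agent.PP.KF
open Pool.Agent.PP.K9 Pool.Agent.PP.K9.H97 Pool.Agent.PP.H75 Pool.Agent.PP.T3 Pool.Agent.PP.T2

attribute [local instance] Ideal.Quotient.field

theorem ep_pos (ℓ : ℕ) : 1 ≤ ep ℓ := by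
  unfold ep
  split_ifs <;> omega

/-- the order of `N(Q) / Q` -/
theorem card_quot_lt {G : Type} [Group G] [Finite G] {Q : Subgroup G} (hQ : Q ≠ ⊥) :
    Nat.card (Subgroup.normalizer (Q : Set G) ⧸ Q.subgroupOf (Subgroup.normalizer (Q : Set G))) <
      Nat.card G := by
  have h1 := Subgroup.card_eq_card_quotient_mul_card_subgroup
    (Q.subgroupOf (Subgroup.normalizer (Q : Set G)))
  have h2 : Nat.card (Q.subgroupOf (Subgroup.normalizer (Q : Set G))) = Nat.card Q :=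
    Nat.card_congr (Subgroup.subgroupOfEquivOfLe Subgroup.le_normalizer).toEquiv
  have h3 : 1 < Nat.card Q := (Subgroup.one_lt_card_iff_ne_bot Q).2 hQ
  have h4 : Nat.card (Subgroup.normalizer (Q : Set G)) ≤ Nat.card G :=
    Subgroup.card_le_card_group _
  have h5 : 0 < Nat.card (Subgroup.normalizer (Q : Set G) ⧸
      Q.subgroupOf (Subgroup.normalizer (Q : Set G))) := Nat.card_pos
  rw [h2] at h1
  refine lt_of_lt_of_le ?_ h4
  rw [h1]
  exact (Nat.lt_mul_iff_one_lt_right h5).2 h3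

theorem t5a (hKIN : KinStmt) (hFS5 : Fs5Stmt) (hUO5 : Uo5Stmt) (hTA5 : Ta5Stmt)
    (hTY5 : Ty5Stmt) (hTX5 : Tx5Stmt) (hTS5 : Ts5Stmt) (hLB5 : Lb5Stmt) (hDV5 : Dv5Stmt)
    (hOMF : OmfStmt) : T5aStmt := by
  intro ℓ hℓ M _ hM a p k hapk
  have hF : GoodF ℓ (FF M) := H50.fld ℓ Fact.out M hM
  have hep := ep_pos ℓ
  suffices hmain : ∀ n : ℕ, ∀ (G : Type) [Group G] [Finite G], Nat.card G = n →
      ∀ (e : G → FF M) (V : Subgroup G), IsBlk e → Tp ℓ e V → Cy ℓ a p k V →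
      YY ℓ ⊤ e = 0 by
    intro G _ _ e V h1 h2 h3
    exact hmain _ G rfl e V h1 h2 h3
  intro n
  induction n using Nat.strong_induction_on with
  | _ n ih =>
  intro G _ _ hn e V he hTp hCy
  by_cases hO : opCore ℓ G = ⊥
  swap
  · exact H96.yzr ℓ (FF M) hℓ.out G ⊤ inferInstance (opCore_top_ne rfl hO) e
  have hIh : Ih5 M ℓ a p k (Nat.card G) := by
    intro A _ _ hA f hf V' hV' hc
    exact ih (Nat.card A) (hn ▸ hA) A rfl f V' hf hV' hc
  have ha : 0 < a := hCy.pos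
  obtain ⟨u, huV, hcen, hord⟩ := hCy.cen
  have hsmall : Nat.card V < ℓ ^ (2 * a) :=
    lt_of_le_of_lt hCy.card (Nat.pow_lt_pow_right hℓ.out.one_lt (by have := hCy.lt; omega))
  obtain ⟨y, hy⟩ := hKIN ℓ M hM G e V u a ha he hTp huV hcen hord hsmall
  obtain ⟨f, hf⟩ := hFS5 ℓ M hM G a e V u y hy
  have hUo := hUO5 ℓ M hM G a e V u y hy f hf
  obtain ⟨o1, -, o3, -⟩ := hOMF ℓ G a u ha hord
  have h1 := hTS5 ℓ (FF M) hF G e he.1 (Om ℓ a u) f o1 o3 hUo
    (fun Q hQ hQ1 => hTA5 ℓ (FF M) hF G e he.1 (Om ℓ a u) f o1 hUo Q hQ (by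
      intro f₁ hf₁ hm hz
      obtain ⟨V', hV', hc'⟩ := hTY5 ℓ M hM G a p k e V u y hy hCy f hf Q hQ _
        (QuotientGroup.mk' (Q.subgroupOf (Subgroup.normalizer (Q : Set G))))
        (QuotientGroup.mk'_surjective _) (QuotientGroup.ker_mk' _) f₁ hf₁ hm hz
      refine hIh _ ?_ f₁ hf₁ V' hV' hc'
      exact card_quot_lt hQ1))
    (fun Q hQ hQ1 hQ2 => hTX5 ℓ M hM G a p k e V u y hy hCy f hf hIh _ rfl Q hQ hQ1 hQ2)
  set U : Subgroup G := Om ℓ a u with hU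
  have hVX : V ≤ Subgroup.normalizer (U : Set G) := Subgroup.le_normalizer.trans hf.nle
  have h2 := hLB5 ℓ M hM G e V u he hTp huV hcen a p ha (by omega) hord hCy.card
  have hcV : Nat.card (V.subgroupOf (Subgroup.normalizer (U : Set G))) = Nat.card V :=
    Nat.card_congr (Subgroup.subgroupOfEquivOfLe hVX).toEquiv
  have h3 := hLB5 ℓ M hM _ _ (V.subgroupOf (Subgroup.normalizer (U : Set G)))
    ⟨u, hVX huV⟩ hf.blk.blk hf.tp (Subgroup.mem_subgroupOf.2 huV)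
    (fun v hv => Subtype.ext (hcen v (Subgroup.mem_subgroupOf.1 hv))) a p ha (by omega)
    (by rw [← hord]; exact (Subgroup.orderOf_mk u (hVX huV)))
    (by rw [hcV]; exact hCy.card)
  obtain ⟨a1, -⟩ := H3.lbd ℓ M hM G e he.1 he.2.1
  obtain ⟨b1, -⟩ := H3.lbd ℓ M hM _ _ hf.blk.blk.1 hf.blk.blk.2.1
  have a2 : 1 ≤ ln e := a1
  have b2 : 1 ≤ ln (fun t : Subgroup.normalizer (U : Set G) => f t) := b1
  have hV : V ≠ ⊥ := by
    intro hb
    have h5 : u = 1 := Subgroup.mem_bot.1 (hb ▸ huV : u ∈ (⊥ : Subgroup G))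
    rw [h5, orderOf_one] at hord
    have h6 : 1 < ℓ ^ a := Nat.one_lt_pow ha.ne' hℓ.out.one_lt
    omega
  obtain ⟨χ, hχ, r1, -, r3⟩ := H75.block_case H20.nls H20.brm H63.smt H94.nch
    (H50.dic H20.ibn H20.nls H20.brm) H50.bid H50.chp H50.ldp H50.fld hℓ.out hM hO he
    (T3.H38.pos ℓ (FF M) hF G e he V hTp.pg hV hTp.gd)
  have h4 := hDV5 ℓ M hM G hO a p k e V he hTp hCy χ hχ r1
  rw [h1] at r3
  have h7 : (Nat.card G : ℤ) ≠ 0 := by exact_mod_cast Nat.card_pos.ne'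
  have h8 := mul_left_cancel₀ h7 r3
  have h9 : (ln e : ℤ) - ln (fun t : Subgroup.normalizer (U : Set G) => f t) = 0 := by
    rw [h8] at h4
    refine Int.eq_zero_of_abs_lt_dvd h4 ?_
    rw [abs_lt]
    push_cast
    have hle : ℓ ^ (3 * p + ep ℓ) ≤ ℓ ^ (a - k) :=
      Nat.pow_le_pow_right hℓ.out.one_lt.le (by omega)
    have h2' : (ln e : ℤ) ≤ (ℓ : ℤ) ^ (a - k) := by exact_mod_cast h2.trans hle
    have h3' : (ln (fun t : Subgroup.normalizer (U : Set G) => f t) : ℤ) ≤ (ℓ : ℤ) ^ (a - k) := by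
      exact_mod_cast h3.trans hle
    have a2' : (1 : ℤ) ≤ (ln e : ℤ) := by exact_mod_cast a2
    have b2' : (1 : ℤ) ≤ (ln (fun t : Subgroup.normalizer (U : Set G) => f t) : ℤ) := by
      exact_mod_cast b2
    constructor <;> linarith
  rw [h1, h9, mul_zero]

end Pool.Agent.PP.T5.H43
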