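import Pool.Agent.Helper11_AT5.Asm5

/-!
# Squad AT5: the theorem without auxiliary definitions
-/

open scoped BigOperators

noncomputable section

namespace Pool.Agent.PP.T5.H43

open Pool.Agent.Helper51_AWC Pool.Agent.Helper79_WRA Pool.Agent.PP Pool.Agent.PP.KF
open Pool.Agent.PP.K9 Pool.Agent.PP.K9.H97 Pool.Agent.PP.H75 Pool.Agent.PP.T3 Pool.Agent.PP.T2

attribute [local instance] Ideal.Quotient.field

theorem card_rel {G : Type} [Group G] {B D : Subgroup G} (h : B ≤ D) :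
    B.relIndex D * Nat.card B = Nat.card D := by
  rw [← Nat.card_congr (Subgroup.subgroupOfEquivOfLe h).toEquiv, mul_comm]
  exact Subgroup.card_mul_index (B.subgroupOf D)

/-- a large cyclic subgroup, central modulo `O_ℓ(G)`, and an abelian subgroup -/
theorem fin5 : ∀ (ℓ : ℕ) [Fact ℓ.Prime] (M : Ideal (integralClosure ℤ ℂ)) [M.IsMaximal],
    (ℓ : integralClosure ℤ ℂ) ∈ M → ∀ (G : Type) [Group G] [Finite G],
    opCore ℓ G ≤ Subgroup.center G → ∀ χ ∈ Irr G, ∀ D : Subgroup G, ML.IsDef ℓ M χ D →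
    ∀ z ∈ D, (∀ d ∈ D, z * d * z⁻¹ * d⁻¹ ∈ opCore ℓ G) →
    ∀ B ≤ D, (∀ x ∈ B, ∀ y ∈ B, x * y * x⁻¹ * y⁻¹ ∈ opCore ℓ G) →
    ∀ q m : ℕ, (∀ n : ℕ, z ^ n ∈ opCore ℓ G ↔ q ∣ n) → Nat.card D = m * q * Nat.card (opCore ℓ G) →
    (if ℓ = 2 then 4 else ℓ) * m ^ 3 * B.relIndex D ≤ q → altSum ℓ M χ = 0 := by
  intro ℓ _ M _ hM G _ _ hc χ hχ D hD z hz hzc B hB hBc q m hq hcard hle
  refine fn5_ ℓ M hM G hc χ hχ D hD z hz hzc B hB hBc q m hq hcard ?_
  have h1 : ℓ ^ ep ℓ = if ℓ = 2 then 4 else ℓ := by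
    unfold ep
    split_ifs with h
    · rw [h]
      norm_num
    · rw [pow_one]
  rw [h1]
  exact hle

/-- the case of `B = ⟨z⟩ O_ℓ(G)` -/
theorem fin5' : ∀ (ℓ : ℕ) [Fact ℓ.Prime] (M : Ideal (integralClosure ℤ ℂ)) [M.IsMaximal],
    (ℓ : integralClosure ℤ ℂ) ∈ M → ∀ (G : Type) [Group G] [Finite G],
    opCore ℓ G ≤ Subgroup.center G → ∀ χ ∈ Irr G, ∀ D : Subgroup G, ML.IsDef ℓ M χ D →
    ∀ z ∈ D, (∀ d ∈ D, z * d * z⁻¹ * d⁻¹ ∈ opCore ℓ G) →
    ∀ q m : ℕ, (∀ n : ℕ, z ^ n ∈ opCore ℓ G ↔ q ∣ n) → Nat.card D = m * q * Nat.card (opCore ℓ G) →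
    (if ℓ = 2 then 4 else ℓ) * m ^ 4 ≤ q → altSum ℓ M χ = 0 := by
  intro ℓ _ M _ hM G _ _ hc χ hχ D hD z hz hzc q m hq hcard hle
  obtain ⟨e, he, h1, h2⟩ := H50.bid ℓ Fact.out M hM G χ hχ
  have hn : (opCore ℓ G).Normal := H75.opCore_normal (A := G) ℓ
  obtain ⟨-, hOD, -, -⟩ := dz5_ ℓ M hM G hc χ hχ D hD e he h1
    (G ⧸ opCore ℓ G) (QuotientGroup.mk' (opCore ℓ G)) (QuotientGroup.mk'_surjective (opCore ℓ G))
    (QuotientGroup.ker_mk' _)
  obtain ⟨B, hB⟩ : ∃ B : Subgroup G, B = Subgroup.zpowers z ⊔ opCore ℓ G := ⟨_, rfl⟩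
  have hBD : B ≤ D := by
    rw [hB]
    exact sup_le (by rwa [Subgroup.zpowers_le]) hOD
  have hzC : z ∈ Subgroup.centralizer ({z} : Set G) := Subgroup.mem_centralizer_singleton_iff.2 rfl
  have hgen : ∀ x : G, z * x = x * z → B ≤ Subgroup.centralizer ({x} : Set G) := by
    intro x hx
    rw [hB, sup_le_iff, Subgroup.zpowers_le]
    refine ⟨Subgroup.mem_centralizer_singleton_iff.2 hx, fun o ho => ?_⟩
    exact Subgroup.mem_centralizer_singleton_iff.2 (Subgroup.mem_center_iff.1 (hc ho) x).symm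
  have hab : ∀ x ∈ B, ∀ y ∈ B, x * y = y * x := by
    intro x hx y hy
    have h3 := Subgroup.mem_centralizer_singleton_iff.1 (hgen z rfl hx)
    exact (Subgroup.mem_centralizer_singleton_iff.1 (hgen x h3.symm hy)).symm
  have hBi : B.relIndex D = m := by
    have hq0 : q ≠ 0 := by
      intro h0
      rw [h0] at hcard
      simp only [mul_zero, zero_mul] at hcard
      exact (Nat.card_pos (α := D)).ne' hcard
    have h3 : B.relIndex D * Nat.card B = Nat.card D := card_rel hBD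
    have h5 : (opCore ℓ G).relIndex B = q := by
      have h6 : B = Subgroup.zpowers z ⊔ opCore ℓ G := hB
      rw [h6, Subgroup.relIndex_sup_right]
      have h7 : (opCore ℓ G).relIndex (Subgroup.zpowers z) =
          orderOf ((QuotientGroup.mk' (opCore ℓ G)) z) := by
        rw [← Nat.card_zpowers, ← MonoidHom.map_zpowers]
        have h8 : (opCore ℓ G).relIndex (Subgroup.zpowers z) =
            (QuotientGroup.mk' (opCore ℓ G)).ker.relIndex (Subgroup.zpowers z) := by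
          rw [QuotientGroup.ker_mk']
        rw [h8, Subgroup.relIndex_ker]
      rw [h7]
      apply Nat.dvd_antisymm
      · rw [orderOf_dvd_iff_pow_eq_one, ← map_pow]
        exact (QuotientGroup.eq_one_iff _).2 ((hq q).2 dvd_rfl)
      · rw [← hq]
        refine (QuotientGroup.eq_one_iff _).1 ?_
        exact (map_pow (QuotientGroup.mk' (opCore ℓ G)) z _).trans (pow_orderOf_eq_one _)
    have h6 : Nat.card B = q * Nat.card (opCore ℓ G) := by
      rw [← h5]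
      exact (card_rel (hB ▸ le_sup_right)).symm
    rw [h6, hcard] at h3
    have h9 : 0 < q * Nat.card (opCore ℓ G) :=
      Nat.mul_pos (Nat.pos_of_ne_zero hq0) Nat.card_pos
    have h10 : B.relIndex D * (q * Nat.card (opCore ℓ G)) = m * (q * Nat.card (opCore ℓ G)) := by
      rw [h3, mul_assoc]
    exact Nat.eq_of_mul_eq_mul_right h9 h10
  refine fin5 ℓ M hM G hc χ hχ D hD z hz hzc B hBD ?_ q m hq hcard ?_
  · intro x hx y hy
    have h3 : x * y * x⁻¹ * y⁻¹ = 1 := by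
      rw [hab x hx y hy, mul_inv_cancel_right, mul_inv_cancel]
    rw [h3]
    exact one_mem _
  · rw [hBi]
    calc (if ℓ = 2 then 4 else ℓ) * m ^ 3 * m = (if ℓ = 2 then 4 else ℓ) * m ^ 4 := by ring
      _ ≤ q := hle

end Pool.Agent.PP.T5.H43
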